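import Pool.Agent.Helper51.REC.Goals1

/-!
# REC-K_BRK: the sum `[x, β]`
-/

set_option autoImplicit false

namespace Pool.Agent.Helper33.REC

open NumberField Module IsDedekindDomain Pool.Agent.Helper51.RP Pool.Agent.Helper42.PP
  Pool.Agent.Helper51.REC

theorem val_le_one {F : Type} [Field F] [NumberField F] (p : ℕ) (W : HeightOneSpectrum (𝓞 F)) :
    W.valuation F (p : F) ≤ 1 := by
  have h1 : (p : F) = algebraMap (𝓞 F) F (p : 𝓞 F) := (map_natCast (algebraMap (𝓞 F) F) p).symm
  rw [h1]
  exact W.valuation_le_one _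

theorem finite_ordv {F : Type} [Field F] [NumberField F] (x : Fˣ) :
    {w : HeightOneSpectrum (𝓞 F) | ordv w (x : F) ≠ 0}.Finite := by
  refine ((HeightOneSpectrum.Support.finite (𝓞 F) (x : F)).union
    (HeightOneSpectrum.Support.finite (𝓞 F) (x : F)⁻¹)).subset ?_
  intro w hw
  have hne : w.valuation F (x : F) ≠ 1 := by
    intro h1
    apply hw
    unfold ordv
    rw [h1]
    simp
  have h0 : w.valuation F (x : F) ≠ 0 := (Valuation.ne_zero_iff _).mpr x.ne_zero
  rcases lt_or_gt_of_ne hne with h | h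
  · right
    show 1 < w.valuation F (x : F)⁻¹
    rw [map_inv₀]
    exact (one_lt_inv₀ (zero_lt_iff.mpr h0)).mpr h
  · left
    exact h

theorem ordv_mul' {F : Type} [Field F] [NumberField F] (w : HeightOneSpectrum (𝓞 F)) (x y : Fˣ) :
    ordv w ((x * y : Fˣ) : F) = ordv w (x : F) + ordv w (y : F) := by
  unfold ordv
  rw [Units.val_mul, map_mul, WithZero.log_mul ((Valuation.ne_zero_iff _).mpr x.ne_zero)
    ((Valuation.ne_zero_iff _).mpr y.ne_zero)]
  ring

open Classical in
/-- The summand. -/
noncomputable def term (p : ℕ) {F : Type} [Field F] [NumberField F] (ε : F)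
    (S : Set (HeightOneSpectrum (𝓞 F))) (x β : Fˣ) (W : HeightOneSpectrum (𝓞 F)) : ZMod p :=
  if W ∈ S then 0 else ((ordv W (β : F) : ℤ) : ZMod p) * kap p ε W x

theorem brk_eq (p : ℕ) {F : Type} [Field F] [NumberField F] (ε : F)
    (S : Set (HeightOneSpectrum (𝓞 F))) (x β : Fˣ) :
    brk p ε S x β = ∑ᶠ W, term p ε S x β W := rfl

theorem term_supp (p : ℕ) {F : Type} [Field F] [NumberField F] (ε : F)
    (S : Set (HeightOneSpectrum (𝓞 F))) (x β : Fˣ) :
    (Function.support (term p ε S x β)).Finite := by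
  refine (finite_ordv β).subset ?_
  intro W hW h0
  apply hW
  unfold term
  rw [h0]
  simp

/-- The sum `[x, β]`. -/
theorem k_brk (h1 : K_BAS) : K_BRK := by
  intro p _ F _ _ ε S hε hS
  refine ⟨?_, ?_, ?_, ?_, ?_⟩
  · intro x β β'
    rw [brk_eq, brk_eq, brk_eq, ← finsum_add_distrib (term_supp p ε S x β)
      (term_supp p ε S x β')]
    refine finsum_congr fun W => ?_
    unfold term
    by_cases hW : W ∈ S
    · rw [if_pos hW, if_pos hW, if_pos hW, add_zero]
    · rw [if_neg hW, if_neg hW, if_neg hW, ordv_mul', Int.cast_add, add_mul]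
  · intro x β hβ
    rw [brk_eq]
    refine finsum_eq_zero_of_forall_eq_zero fun W => ?_
    unfold term
    by_cases hW : W ∈ S
    · rw [if_pos hW]
    · rw [if_neg hW, (ZMod.intCast_zmod_eq_zero_iff_dvd _ _).2 (hβ W hW), zero_mul]
  · intro x x' β hβ
    rw [brk_eq, brk_eq, brk_eq, ← finsum_add_distrib (term_supp p ε S x β)
      (term_supp p ε S x' β)]
    refine finsum_congr fun W => ?_
    unfold term
    by_cases hW : W ∈ S
    · rw [if_pos hW, if_pos hW, if_pos hW, add_zero]
    · rw [if_neg hW, if_neg hW, if_neg hW]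
      rcases hβ W hW with h | ⟨h, h'⟩
      · rw [(ZMod.intCast_zmod_eq_zero_iff_dvd _ _).2 h, zero_mul, zero_mul, zero_mul, add_zero]
      · have hv : W.valuation F (p : F) = 1 := by
          rcases lt_or_eq_of_le (val_le_one p W) with h2 | h2
          · exact absurd (hS W h2) hW
          · exact h2
        obtain ⟨-, -, -, h3, -⟩ := h1 p F ε hε W hv
        rw [h3 x x' h h', mul_add]
  · intro x β T hT hT'
    rw [brk_eq, finsum_eq_sum_of_support_subset (s := T)]
    · refine Finset.sum_congr rfl fun W hW => ?_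
      unfold term
      rw [if_neg (hT W hW)]
    · intro W hW
      by_contra hn
      apply hW
      unfold term
      by_cases hWS : W ∈ S
      · rw [if_pos hWS]
      · rw [if_neg hWS]
        have h2 : (p : ℤ) ∣ ordv W (β : F) := by
          by_contra hd
          exact hn (hT' W hWS hd)
        rw [(ZMod.intCast_zmod_eq_zero_iff_dvd _ _).2 h2, zero_mul]
  · intro β
    refine (finite_ordv β).subset ?_
    intro W hW h0
    apply hW
    rw [h0]
    exact dvd_zero _

end Pool.Agent.Helper33.REC
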